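import Mathlib
import Pool.Agent.H430R2.PermCubes.Defs

set_option autoImplicit false

/-!
# Groups of order `2` modulo `4` and the cubes made of them
-/

namespace Pool.Agent.L7h54.MN

open Finset Function Pool.Agent.H430R2.PermCubes

/-- a finite group of order `2` modulo `4` has a subgroup of index two -/
theorem exists_index_two (G : Type) [Group G] (hn : Nat.card G % 4 = 2) :
    ∃ N : Subgroup G, N.index = 2 := by
  classical
  have : Finite G := Nat.finite_of_card_ne_zero (by omega)
  have : Fact (Nat.Prime 2) := ⟨Nat.prime_two⟩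
  obtain ⟨P⟩ : Nonempty (Sylow 2 G) := inferInstance
  have hP : Nat.card P = 2 := by
    have h0 : Nat.card P = 2 ^ (Nat.card G).factorization 2 := Sylow.card_eq_multiplicity P
    have h1 : 2 ∣ Nat.card P := Sylow.dvd_card_of_dvd_card P (by omega)
    have h2 : Nat.card P ∣ Nat.card G := Subgroup.card_subgroup_dvd_card P.toSubgroup
    rw [h0] at h1 h2 ⊢
    generalize (Nat.card G).factorization 2 = a at *
    rcases a with _ | _ | a
    · simp at h1
    · rfl
    · exfalso
      have : 4 ∣ Nat.card G := Dvd.dvd.trans ⟨2 ^ a, by ring⟩ h2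
      omega
  have hmin : (Nat.card G).minFac = 2 := by
    rw [Nat.minFac_eq_two_iff]
    omega
  have hc : IsCyclic P := isCyclic_of_prime_card hP
  have h2 := hc.isComplement' hmin
  exact ⟨_, by rw [h2.symm.index_eq_card]; exact hP⟩

/-- the halves of a cube made of a group of order `2` modulo `4` -/
theorem group_halves {n m : ℕ} (hn : n % 4 = 2) (G : Type) [Group G] (hG : Nat.card G = n)
    (φ : Fin m → Fin n → G) (hφ : ∀ j, Bijective (φ j)) (σ : G → Fin n) (hσ : Bijective σ) :
    ∃ (H : Finset (Fin n)) (K : Fin m → Finset (Fin n)), 2 * H.card = n ∧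
      (∀ j, 2 * (K j).card = n) ∧
      ∀ x : Fin m → Fin n, (∀ j, x j ∈ K j) → σ ((List.ofFn fun j => φ j (x j)).prod) ∈ H := by
  classical
  obtain ⟨N, hN⟩ := exists_index_two G (by rw [hG]; exact hn)
  have : Finite G := Nat.finite_of_card_ne_zero (by omega)
  have hc : 2 * Nat.card N = n := by
    rw [← hG, ← hN, N.index_mul_card]
  have hbij : ∀ f : Fin n → G, Bijective f →
      2 * (univ.filter fun t => f t ∈ N).card = n := by
    intro f hf
    have h1 : (univ.filter fun t => f t ∈ N).card = Nat.card N := by
      rw [← Fintype.card_subtype, ← Nat.card_eq_fintype_card]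
      exact Nat.card_congr ((Equiv.ofBijective f hf).subtypeEquiv (fun a => Iff.rfl))
    rw [h1, hc]
  refine ⟨univ.filter fun t => (Equiv.ofBijective σ hσ).symm t ∈ N,
    fun j => univ.filter fun t => φ j t ∈ N, ?_, fun j => hbij _ (hφ j), ?_⟩
  · exact hbij _ (Equiv.bijective _)
  · intro x hx
    simp only [mem_filter, mem_univ, true_and] at hx ⊢
    have h2 : (Equiv.ofBijective σ hσ).symm (σ ((List.ofFn fun j => φ j (x j)).prod)) =
        (List.ofFn fun j => φ j (x j)).prod := by
      exact (Equiv.ofBijective σ hσ).symm_apply_apply _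
    rw [h2]
    apply Subgroup.list_prod_mem
    intro y hy
    rw [List.mem_ofFn] at hy
    obtain ⟨j, rfl⟩ := hy
    exact hx j

/-- a product in which one factor varies -/
theorem prod_update {G : Type} [Group G] : ∀ (m : ℕ) (i : Fin m) (f : Fin m → G),
    ∃ A B : G, ∀ a : G, (List.ofFn (update f i a)).prod = A * a * B := by
  intro m
  induction m with
  | zero => intro i; exact i.elim0
  | succ m ih =>
    intro i f
    refine Fin.cases ?_ (fun i' => ?_) i
    · refine ⟨1, (List.ofFn fun j : Fin m => f j.succ).prod, fun a => ?_⟩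
      rw [List.ofFn_succ, List.prod_cons, update_self, one_mul]
      congr 3
    · obtain ⟨A, B, hAB⟩ := ih i' (fun j => f j.succ)
      refine ⟨f 0 * A, B, fun a => ?_⟩
      rw [List.ofFn_succ, List.prod_cons, update_of_ne (Fin.succ_ne_zero i').symm]
      have h1 : (fun j : Fin m => update f i'.succ a j.succ) = update (fun j => f j.succ) i' a := by
        funext j
        by_cases hj : j = i'
        · subst hj; simp
        · rw [update_of_ne hj, update_of_ne (fun h => hj (Fin.succ_injective _ h))]
      rw [h1, hAB]
      simp only [mul_assoc]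

/-- the cube made of a group -/
theorem isPermutationCube_group {n m : ℕ} (G : Type) [Group G]
    (φ : Fin m → Fin n → G) (hφ : ∀ j, Bijective (φ j)) (σ : G → Fin n) (hσ : Bijective σ) :
    IsPermutationCube m n (fun x => σ ((List.ofFn fun j => φ j (x j)).prod)) := by
  classical
  intro i x
  obtain ⟨A, B, hAB⟩ := prod_update m i (fun j => φ j (x j))
  have h1 : (fun t : Fin n => σ ((List.ofFn fun j => φ j (update x i t j)).prod)) =
      σ ∘ (fun a : G => A * a * B) ∘ φ i := by
    funext t
    have h2 : (fun j => φ j (update x i t j)) = update (fun j => φ j (x j)) i (φ i t) := by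
      funext j
      by_cases hj : j = i
      · subst hj; simp
      · rw [update_of_ne hj, update_of_ne hj]
    simp only [comp_apply]
    rw [h2, hAB]
  change Bijective (fun t : Fin n => σ ((List.ofFn fun j => φ j (update x i t j)).prod))
  rw [h1]
  refine hσ.comp (Bijective.comp ?_ (hφ i))
  exact ((Equiv.mulLeft A).trans (Equiv.mulRight B)).bijective

/-- for every `n ≥ 1` and every `m ≥ 2` there is a (vacuous) variational set of `m - 1` cubes, all
equal to the cube of the cyclic group of order `n` -/
theorem exists_vacuous {n m : ℕ} (hn : 0 < n) (hm : 2 ≤ m) :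
    ∃ C : Fin (m - 1) → (Fin m → Fin n) → Fin n, IsVariationalSet m n (m - 1) C ∧
      ∃ (i : Fin (m - 1)) (G : Type) (_ : Group G) (φ : Fin m → Fin n → G) (σ : G → Fin n),
        (∀ j, Bijective (φ j)) ∧ Bijective σ ∧
          C i = fun x => σ ((List.ofFn fun j => φ j (x j)).prod) := by
  have : NeZero n := ⟨hn.ne'⟩
  let φ : Fin m → Fin n → Multiplicative (ZMod n) := fun _ t => Multiplicative.ofAdd
    ((ZMod.finEquiv n).toEquiv t)
  let σ : Multiplicative (ZMod n) → Fin n := fun a => (ZMod.finEquiv n).toEquiv.symm
    (Multiplicative.toAdd a)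
  have hφ : ∀ j, Bijective (φ j) := fun j =>
    Multiplicative.ofAdd.bijective.comp (ZMod.finEquiv n).toEquiv.bijective
  have hσ : Bijective σ :=
    (ZMod.finEquiv n).toEquiv.symm.bijective.comp Multiplicative.toAdd.bijective
  refine ⟨fun _ x => σ ((List.ofFn fun j => φ j (x j)).prod),
    ⟨fun _ => isPermutationCube_group _ φ hφ σ hσ, ?_⟩,
    ⟨0, by omega⟩, Multiplicative (ZMod n), inferInstance, φ, σ, hφ, hσ, rfl⟩
  intro e he
  exfalso
  have := Fintype.card_le_of_injective e he
  simp at this
  omega

end Pool.Agent.L7h54.MN
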