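import Pool.Agent.L7h54.MN.Box
import Pool.Agent.L7h54.MN.Grp

set_option autoImplicit false

/-!
# Variational sets of products over a partition of the coordinates

For `n ≡ 2 mod 4` and `m` even, at least `m + 1` cubes that are products over `r` blocks of
coordinates in groups of order `n`: then `2 * r ≤ m`.
-/

namespace Pool.Agent.L7h54.MN

open Finset Function Pool.Agent.H430R2.PermCubes

variable {m n : ℕ}

/-- sums of signs modulo four -/
theorem sum_prod_mod {α : Type} (s : Finset α) (a : α → ℤ) (ha : ∀ t, a t = 1 ∨ a t = -1) :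
    ((∏ t ∈ s, a t) = 1 ∨ (∏ t ∈ s, a t) = -1) ∧
      (4 : ℤ) ∣ (∑ t ∈ s, a t - s.card) - (∏ t ∈ s, a t - 1) := by
  classical
  induction s using Finset.induction_on with
  | empty => simp
  | insert b s hb ih =>
    obtain ⟨h1, h2⟩ := ih
    rw [prod_insert hb, sum_insert hb, card_insert_of_notMem hb]
    push_cast
    generalize (∏ t ∈ s, a t) = P at *
    generalize (∑ t ∈ s, a t) = S at *
    generalize (s.card : ℤ) = c at *
    have hab := ha b
    generalize a b = d at *
    constructor
    · rcases hab with h | h <;> rcases h1 with h' | h' <;> subst h <;> subst h' <;> norm_num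
    · rcases hab with h | h <;> rcases h1 with h' | h' <;> subst h <;> subst h' <;> omega

/-- signs with product `-1` on a set of `n` elements, `n ≡ 2 mod 4` -/
theorem four_dvd_sum {α : Type} [Fintype α] (a : α → ℤ) (ha : ∀ t, a t = 1 ∨ a t = -1)
    (hn : Fintype.card α % 4 = 2) (hp : ∏ t, a t = -1) : (4 : ℤ) ∣ ∑ t, a t := by
  have h := (sum_prod_mod univ a ha).2
  rw [hp, card_univ] at h
  omega

/-- balanced signs on a set of `n` elements, `n ≡ 2 mod 4`, have product `-1` -/
theorem prod_eq_neg_one {α : Type} [Fintype α] (a : α → ℤ) (ha : ∀ t, a t = 1 ∨ a t = -1)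
    (hn : Fintype.card α % 4 = 2) (hs : ∑ t, a t = 0) : ∏ t, a t = -1 := by
  obtain ⟨h1, h2⟩ := sum_prod_mod univ a ha
  rw [hs, card_univ] at h2
  rcases h1 with h1 | h1
  · rw [h1] at h2; omega
  · exact h1

/-- summation over the lines in the direction `j` -/
theorem sum_line [NeZero n] (j : Fin m) (Φ K : (Fin m → Fin n) → ℤ)
    (hK : ∀ x t, K (update x j t) = K x) :
    ∑ x, Φ x * K x = ∑ x : Fin m → Fin n, (if x j = 0 then (∑ t, Φ (update x j t)) * K x else 0) := by
  classical
  have hinv : Involutive
      (fun p : (Fin m → Fin n) × Fin n => ((update p.1 j p.2, p.1 j) : (Fin m → Fin n) × Fin n)) := by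
    rintro ⟨x, t⟩
    simp
  have h1 : ∑ x : Fin m → Fin n, (if x j = 0 then (∑ t, Φ (update x j t)) * K x else 0) =
      ∑ p : (Fin m → Fin n) × Fin n, (if p.1 j = 0 then Φ (update p.1 j p.2) * K p.1 else 0) := by
    rw [Fintype.sum_prod_type]
    refine sum_congr rfl fun x _ => ?_
    split_ifs
    · rw [sum_mul]
    · simp
  have h2 : ∑ p : (Fin m → Fin n) × Fin n, (if p.1 j = 0 then Φ (update p.1 j p.2) * K p.1 else 0) =
      ∑ p : (Fin m → Fin n) × Fin n, (if p.2 = 0 then Φ p.1 * K p.1 else 0) := by
    refine Fintype.sum_equiv hinv.toPerm _ _ (fun p => ?_)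
    change _ = (if p.1 j = 0 then Φ (update p.1 j p.2) * K (update p.1 j p.2) else 0)
    rw [hK]
  rw [h1, h2, Fintype.sum_prod_type]
  refine sum_congr rfl fun x _ => ?_
  rw [sum_ite_eq' univ (0 : Fin n) (fun _ => Φ x * K x)]
  simp

/-- **Every block contributes a factor four.** -/
theorem four_pow_dvd [NeZero n] {r : ℕ} (F : Fin r → (Fin m → Fin n) → ℤ) (j : Fin r → Fin m)
    (hj : Injective j)
    (hF : ∀ b b' x t, b ≠ b' → F b (update x (j b') t) = F b x)
    (hl : ∀ b x, (4 : ℤ) ∣ ∑ t, F b (update x (j b) t)) (S : Finset (Fin r)) :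
    ∀ G : (Fin m → Fin n) → ℤ, (∀ b ∈ S, ∀ x t, G (update x (j b) t) = G x) →
      (4 : ℤ) ^ S.card ∣ ∑ x, (∏ b ∈ S, F b x) * G x := by
  classical
  induction S using Finset.induction_on with
  | empty => intro G _; simp
  | insert a S ha ih =>
    intro G hG
    -- the quotient of the line sums
    choose q hq using hl a
    have hqu : ∀ b ∈ S, ∀ x t, q (update x (j b) t) = q x := by
      intro b hb x t
      have hab : a ≠ b := fun h => ha (h ▸ hb)
      have hjj : j a ≠ j b := fun h => hab (hj h)
      have h1 := hq (update x (j b) t)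
      have h2 := hq x
      have h3 : ∀ s, F a (update (update x (j b) t) (j a) s) = F a (update x (j a) s) := by
        intro s
        rw [update_comm hjj.symm, hF a b _ _ hab]
      simp only [h3] at h1
      rw [h2] at h1
      omega
    have e1 : ∑ x, (∏ b ∈ insert a S, F b x) * G x =
        ∑ x, F a x * ((∏ b ∈ S, F b x) * G x) := by
      refine sum_congr rfl fun x _ => ?_
      rw [prod_insert ha]; ring
    have e2 := sum_line (j a) (F a) (fun x => (∏ b ∈ S, F b x) * G x) (by
      intro x t
      rw [hG a (mem_insert_self _ _)]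
      congr 1
      refine prod_congr rfl fun b hb => ?_
      exact hF b a x t (fun h => ha (h ▸ hb)))
    rw [e1, e2]
    have e3 : ∑ x : Fin m → Fin n, (if x (j a) = 0 then
        (∑ t, F a (update x (j a) t)) * ((∏ b ∈ S, F b x) * G x) else 0) =
        4 * ∑ x, (∏ b ∈ S, F b x) * ((if x (j a) = 0 then q x else 0) * G x) := by
      rw [mul_sum]
      refine sum_congr rfl fun x _ => ?_
      split_ifs
      · rw [hq]; ring
      · ring
    rw [e3, card_insert_of_notMem ha, pow_succ, mul_comm]
    refine mul_dvd_mul_left 4 (ih _ ?_)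
    intro b hb x t
    have hab : a ≠ b := fun h => ha (h ▸ hb)
    have hjj : j a ≠ j b := fun h => hab (hj h)
    rw [update_of_ne hjj, hqu b hb, hG b (mem_insert_of_mem hb)]

/-- the signs of a subgroup of index two -/
def eps {G : Type} [Group G] (N : Subgroup G) [DecidablePred (· ∈ N)] (a : G) : ℤ :=
  if a ∈ N then 1 else -1

theorem eps_mul {G : Type} [Group G] (N : Subgroup G) [DecidablePred (· ∈ N)] (hN : N.index = 2)
    (a b : G) : eps N (a * b) = eps N a * eps N b := by
  unfold eps
  rw [if_congr (Subgroup.mul_mem_iff_of_index_two hN) rfl rfl]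
  by_cases h1 : a ∈ N <;> by_cases h2 : b ∈ N <;> simp [h1, h2]

theorem eps_prod {G : Type} [Group G] (N : Subgroup G) [DecidablePred (· ∈ N)] (hN : N.index = 2)
    {r : ℕ} (f : Fin r → G) : eps N (List.ofFn f).prod = ∏ b, eps N (f b) := by
  induction r with
  | zero => simp [eps, N.one_mem]
  | succ r ih =>
    rw [List.ofFn_succ, List.prod_cons, eps_mul N hN, Fin.prod_univ_succ, ih]

/-- the last of `m + 1` cubes, as a function of the first `m` ones, has zero line sums of signs -/
theorem odd_total {k : ℕ} {C : Fin k → (Fin m → Fin n) → Fin n} (hm : 1 ≤ m) (hmk : m + 1 ≤ k)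
    (hn : n % 4 = 2) (h : IsVariationalSet m n k C) (H : Fin (m + 1) → Finset (Fin n))
    (hH : ∀ i, 2 * (H i).card = n) :
    ∃ a : ℤ, ∑ x, ∏ i : Fin (m + 1), sg (H i) (C (Fin.castLE hmk i) x) = 2 ^ m * (2 * a + 1) := by
  classical
  obtain ⟨l, hl⟩ : ∃ l, n = 2 * l := ⟨n / 2, by omega⟩
  have hodd : l % 2 = 1 := by omega
  have hH' : ∀ i, (H i).card = l := fun i => by have := hH i; omega
  have hb := h.2 (fun j : Fin m => Fin.castLE hmk j.castSucc) (by
    intro a b hab
    exact Fin.castSucc_injective _ (Fin.castLE_injective hmk hab))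
  set E : (Fin m → Fin n) ≃ (Fin m → Fin n) := Equiv.ofBijective _ hb with hE
  have hEa : ∀ x j, E x j = C (Fin.castLE hmk j.castSucc) x := fun x j => rfl
  set f : (Fin m → Fin n) → ℤ := fun y => sg (H (Fin.last m)) (C (Fin.castLE hmk (Fin.last m)) (E.symm y))
    with hf
  have h1 : ∑ x, ∏ i : Fin (m + 1), sg (H i) (C (Fin.castLE hmk i) x) =
      ∑ y, f y * ∏ j : Fin m, sg (H j.castSucc) (y j) := by
    refine Fintype.sum_equiv E _ _ (fun x => ?_)
    rw [Fin.prod_univ_castSucc, mul_comm]
    simp only [hf, Equiv.symm_apply_apply, hEa]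
  have hline : ∀ (r : Fin m) (y : Fin m → Fin n), ∑ t, f (update y r t) = 0 := by
    intro r y
    -- the last cube is a permutation on the line
    have hinj : Injective (fun t : Fin n => C (Fin.castLE hmk (Fin.last m)) (E.symm (update y r t))) := by
      intro t t' htt
      simp only at htt
      have hb' := h.2 (fun j : Fin m => if j = r then Fin.castLE hmk (Fin.last m) else
        Fin.castLE hmk j.castSucc) (by
          intro a b hab
          simp only at hab
          by_cases ha : a = r
          · by_cases hb : b = r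
            · rw [ha, hb]
            · rw [if_pos ha, if_neg hb] at hab
              have := Fin.castLE_injective hmk hab
              exact absurd this.symm (Fin.castSucc_lt_last b).ne
          · by_cases hb : b = r
            · rw [if_neg ha, if_pos hb] at hab
              have := Fin.castLE_injective hmk hab
              exact absurd this (Fin.castSucc_lt_last a).ne
            · rw [if_neg ha, if_neg hb] at hab
              exact Fin.castSucc_injective _ (Fin.castLE_injective hmk hab))
      have h2 : E.symm (update y r t) = E.symm (update y r t') := by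
        apply hb'.1
        funext j
        by_cases hj : j = r
        · simp only [if_pos hj]
          exact htt
        · simp only [if_neg hj]
          rw [← hEa, ← hEa, E.apply_symm_apply, E.apply_symm_apply, update_of_ne hj, update_of_ne hj]
      have h3 := congrFun (E.symm.injective h2) r
      simpa using h3
    have hbij := Finite.injective_iff_bijective.1 hinj
    have : ∑ t, f (update y r t) = ∑ s, sg (H (Fin.last m)) s :=
      Fintype.sum_bijective _ hbij _ _ (fun t => rfl)
    rw [this]
    exact sum_sg (hH _)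
  rw [h1, signed_sum hm hl (by omega) (fun j => H j.castSucc) (fun j => hH' _) hline]
  -- the sum over the box is odd
  have h2 : ∃ a : ℤ, ∑ y, f y * ∏ j : Fin m, ind (H j.castSucc) (y j) = 2 * a + 1 := by
    have h3 : ∑ y, f y * ∏ j : Fin m, ind (H j.castSucc) (y j) =
        ∑ y ∈ Fintype.piFinset (fun j : Fin m => H j.castSucc), f y := by
      rw [← sum_filter_add_sum_filter_not univ
        (fun y : Fin m → Fin n => y ∈ Fintype.piFinset (fun j : Fin m => H j.castSucc))]
      rw [filter_univ_mem]
      have h4 : ∑ y ∈ univ.filter (fun y : Fin m → Fin n =>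
          ¬ y ∈ Fintype.piFinset (fun j : Fin m => H j.castSucc)),
          f y * ∏ j : Fin m, ind (H j.castSucc) (y j) = 0 := by
        refine sum_eq_zero fun y hy => ?_
        have h5 := (mem_filter.1 hy).2
        rw [Fintype.mem_piFinset] at h5
        push Not at h5
        obtain ⟨j, hj⟩ := h5
        rw [prod_eq_zero (mem_univ j) (by simp [ind, hj]), mul_zero]
      rw [h4, add_zero]
      refine sum_congr rfl fun y hy => ?_
      rw [Fintype.mem_piFinset] at hy
      rw [prod_eq_one fun j _ => by simp [ind, hy j], mul_one]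
    have h6 := (sum_prod_mod (Fintype.piFinset (fun j : Fin m => H j.castSucc)) f (by
      intro y
      simp only [hf, sg]
      split_ifs <;> simp))
    rw [h3]
    have h7 : ((Fintype.piFinset (fun j : Fin m => H j.castSucc)).card : ℤ) % 2 = 1 := by
      rw [Fintype.card_piFinset]
      simp only [hH', prod_const, card_univ, Fintype.card_fin]
      have : l ^ m % 2 = 1 := by rw [Nat.pow_mod, hodd]; simp
      exact_mod_cast this
    obtain ⟨h8, h9⟩ := h6
    generalize ((Fintype.piFinset (fun j : Fin m => H j.castSucc)).card : ℤ) = c at *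
    generalize (∑ y ∈ Fintype.piFinset (fun j : Fin m => H j.castSucc), f y) = S at *
    generalize (∏ y ∈ Fintype.piFinset (fun j : Fin m => H j.castSucc), f y) = P at *
    refine ⟨(S - 1) / 2, ?_⟩
    rcases h8 with h8 | h8 <;> subst h8 <;> omega
  obtain ⟨a, ha⟩ := h2
  refine ⟨a, ?_⟩
  rw [ha]
  obtain ⟨q, rfl⟩ : ∃ q, m = q + 1 := ⟨m - 1, by omega⟩
  simp only [Nat.add_sub_cancel]
  ring

end Pool.Agent.L7h54.MN
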