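import Mathlib
import Pool.Agent.H430R2.PermCubes.Defs

set_option autoImplicit false

/-!
# Orthogonal permutation cubes of order `2` modulo `4`: the box inequality
-/

namespace Pool.Agent.L7h54.MN

open Finset Function Pool.Agent.H430R2.PermCubes

variable {m n : ℕ}

/-- summing over all the lines in one direction -/
theorem sum_update (r : Fin m) (F : (Fin m → Fin n) → ℤ) :
    ∑ x, ∑ t, F (update x r t) = n * ∑ x, F x := by
  classical
  have h1 : ∑ x, ∑ t, F (update x r t) =
      ∑ p : (Fin m → Fin n) × Fin n, F (update p.1 r p.2) := by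
    rw [Fintype.sum_prod_type]
  have hinv : Involutive
      (fun p : (Fin m → Fin n) × Fin n => ((update p.1 r p.2, p.1 r) : (Fin m → Fin n) × Fin n)) := by
    rintro ⟨x, t⟩
    simp
  have h2 : ∑ p : (Fin m → Fin n) × Fin n, F (update p.1 r p.2) =
      ∑ p : (Fin m → Fin n) × Fin n, F p.1 :=
    Fintype.sum_equiv hinv.toPerm _ _ (fun p => rfl)
  rw [h1, h2, Fintype.sum_prod_type]
  simp only [sum_const, card_univ, Fintype.card_fin, nsmul_eq_mul]
  rw [← mul_sum]

/-- a function with constant line sums against a function that is constant on the lines -/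
theorem line_sum {f g : (Fin m → Fin n) → ℤ} {c : ℤ} (r : Fin m)
    (hf : ∀ x, ∑ t, f (update x r t) = c) (hg : ∀ x t, g (update x r t) = g x) :
    n * ∑ x, f x * g x = c * ∑ x, g x := by
  rw [← sum_update r (fun x => f x * g x), mul_sum]
  refine sum_congr rfl fun x _ => ?_
  simp only [hg]
  rw [← sum_mul, hf]

/-- the sign of a half -/
def sg (K : Finset (Fin n)) (t : Fin n) : ℤ := if t ∈ K then 1 else -1

/-- the indicator function -/
def ind (K : Finset (Fin n)) (t : Fin n) : ℤ := if t ∈ K then 1 else 0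

theorem sg_eq (K : Finset (Fin n)) (t : Fin n) : sg K t = 2 * ind K t - 1 := by
  unfold sg ind; split_ifs <;> norm_num

theorem sum_ind (K : Finset (Fin n)) : ∑ t, ind K t = K.card := by
  unfold ind
  rw [← sum_filter, filter_univ_mem]; simp

theorem sum_sg {K : Finset (Fin n)} (hK : 2 * K.card = n) : ∑ t, sg K t = 0 := by
  simp only [sg_eq, sum_sub_distrib, ← mul_sum, sum_ind]
  simp only [sum_const, card_univ, Fintype.card_fin, nsmul_eq_mul, mul_one]
  have : (2 * (K.card : ℤ)) = n := by exact_mod_cast hK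
  linarith

/-- the first `r` factors are signs, the others indicator functions -/
def mix (K : Fin m → Finset (Fin n)) (r : ℕ) (j : Fin m) (t : Fin n) : ℤ :=
  if (j : ℕ) < r then sg (K j) t else ind (K j) t

theorem mix_step {f : (Fin m → Fin n) → ℤ} {c : ℤ} {h : ℕ} (hn : n = 2 * h) (h0 : 0 < h)
    (K : Fin m → Finset (Fin n)) (hK : ∀ j, (K j).card = h)
    (hf : ∀ r x, ∑ t, f (update x r t) = c) (r : Fin m) :
    ∑ x, f x * ∏ j, mix K (r + 1) j (x j) =
      2 * (∑ x, f x * ∏ j, mix K r j (x j)) - (if (r : ℕ) = 0 then c * h ^ (m - 1) else 0) := by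
  classical
  set g : (Fin m → Fin n) → ℤ := fun x => ∏ j ∈ univ.erase r, mix K r j (x j) with hg
  have hg1 : ∀ x, ∏ j, mix K (r + 1) j (x j) = sg (K r) (x r) * g x := by
    intro x
    rw [← mul_prod_erase univ _ (mem_univ r), hg]
    congr 1
    · simp [mix]
    · refine prod_congr rfl fun j hj => ?_
      have hne : (j : ℕ) ≠ r := fun hh => (mem_erase.1 hj).1 (Fin.ext hh)
      have : ((j : ℕ) < r + 1) ↔ ((j : ℕ) < r) := by omega
      simp only [mix, this]
  have hg2 : ∀ x, ∏ j, mix K r j (x j) = ind (K r) (x r) * g x := by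
    intro x
    rw [← mul_prod_erase univ _ (mem_univ r), hg]
    congr 1
    simp [mix]
  have hgu : ∀ x t, g (update x r t) = g x := by
    intro x t
    refine prod_congr rfl fun j hj => ?_
    rw [update_of_ne (mem_erase.1 hj).1]
  have h1 := line_sum r (hf r) hgu
  have h2 : ∑ x, g x = n * (if (r : ℕ) = 0 then (h : ℤ) ^ (m - 1) else 0) := by
    set u : Fin m → Fin n → ℤ := fun j t => if j = r then 1 else mix K r j t with hu
    have hgx : ∀ x, g x = ∏ j, u j (x j) := by
      intro x
      rw [← mul_prod_erase univ _ (mem_univ r), hg, hu]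
      simp only [if_true, one_mul]
      refine prod_congr rfl fun j hj => ?_
      rw [if_neg (mem_erase.1 hj).1]
    have h3 : ∑ x, g x = ∏ j, ∑ t, u j t := by
      simp only [hgx]
      rw [prod_univ_sum, Fintype.piFinset_univ]
    rw [h3, ← mul_prod_erase univ _ (mem_univ r)]
    congr 1
    · simp [hu]
    · split_ifs with hr
      · have : ∀ j ∈ univ.erase r, ∑ t, u j t = (h : ℤ) := by
          intro j hj
          simp only [hu, if_neg (mem_erase.1 hj).1, mix, hr, not_lt_zero, if_false]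
          rw [sum_ind, hK]
        rw [prod_congr rfl this, prod_const, card_erase_of_mem (mem_univ r), card_univ,
          Fintype.card_fin]
      · have hm : 0 < m := by have := r.2; omega
        refine prod_eq_zero (i := ⟨0, hm⟩) ?_ ?_
        · rw [mem_erase]
          refine ⟨fun hh => hr (by rw [← hh]), mem_univ _⟩
        · have hne : (⟨0, hm⟩ : Fin m) ≠ r := fun hh => hr (by rw [← hh])
          have hpos : (0 : ℕ) < r := Nat.pos_of_ne_zero hr
          simp only [hu, if_neg hne, mix, if_pos hpos]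
          exact sum_sg (by rw [hK, hn])
  have hn0 : (n : ℤ) ≠ 0 := by
    have : 0 < n := by omega
    exact_mod_cast this.ne'
  have h4 : ∑ x, f x * g x = (if (r : ℕ) = 0 then c * (h : ℤ) ^ (m - 1) else 0) := by
    rw [h2] at h1
    have : (n : ℤ) * ∑ x, f x * g x =
        n * (if (r : ℕ) = 0 then c * (h : ℤ) ^ (m - 1) else 0) := by
      rw [h1]; split_ifs <;> ring
    exact mul_left_cancel₀ hn0 this
  rw [← h4]
  simp only [hg1, hg2, sg_eq]
  rw [mul_sum, ← sum_sub_distrib]
  refine sum_congr rfl fun x _ => ?_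
  ring

theorem mix_all {f : (Fin m → Fin n) → ℤ} {c : ℤ} {h : ℕ} (hn : n = 2 * h) (h0 : 0 < h)
    (K : Fin m → Finset (Fin n)) (hK : ∀ j, (K j).card = h)
    (hf : ∀ r x, ∑ t, f (update x r t) = c) (r : ℕ) (hr : r + 1 ≤ m) :
    ∑ x, f x * ∏ j, mix K (r + 1) j (x j) =
      2 ^ r * (2 * (∑ x, f x * ∏ j, ind (K j) (x j)) - c * h ^ (m - 1)) := by
  induction r with
  | zero =>
    have := mix_step hn h0 K hK hf ⟨0, by omega⟩
    simp only [if_true] at this
    rw [this]
    simp [mix]
  | succ r ih =>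
    have := mix_step hn h0 K hK hf ⟨r + 1, by omega⟩
    simp only [Nat.succ_ne_zero, if_false, sub_zero] at this
    rw [this, ih (by omega)]
    ring

/-- **The signed sum of a function with constant line sums.** -/
theorem signed_sum {f : (Fin m → Fin n) → ℤ} {c : ℤ} {h : ℕ} (hm : 1 ≤ m) (hn : n = 2 * h)
    (h0 : 0 < h) (K : Fin m → Finset (Fin n)) (hK : ∀ j, (K j).card = h)
    (hf : ∀ r x, ∑ t, f (update x r t) = c) :
    ∑ x, f x * ∏ j, sg (K j) (x j) =
      2 ^ (m - 1) * (2 * (∑ x, f x * ∏ j, ind (K j) (x j)) - c * h ^ (m - 1)) := by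
  rw [← mix_all hn h0 K hK hf (m - 1) (by omega)]
  refine sum_congr rfl fun x _ => ?_
  congr 1
  refine prod_congr rfl fun j _ => ?_
  have : (j : ℕ) < m - 1 + 1 := by have := j.2; omega
  simp only [mix, if_pos this]

theorem prod_sg_sq (K : Fin m → Finset (Fin n)) (x : Fin m → Fin n) :
    (∏ j, sg (K j) (x j)) = 1 ∨ (∏ j, sg (K j) (x j)) = -1 := by
  have : IsUnit (∏ j, sg (K j) (x j)) := by
    rw [IsUnit.prod_iff]
    intro j _
    unfold sg; split_ifs
    · exact isUnit_one
    · exact isUnit_one.neg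
  exact Int.isUnit_iff.1 this

/-- **The box inequality.** -/
theorem box {C D : (Fin m → Fin n) → Fin n} (hm : 2 ≤ m) (hn : n % 4 = 2)
    (hC : IsPermutationCube m n C) (hD : IsPermutationCube m n D) (H : Finset (Fin n))
    (hH : 2 * H.card = n)
    (hCD : ∀ s, ∑ x, (if D x = s then (1 : ℤ) else 0) * sg H (C x) = 0)
    (K : Fin m → Finset (Fin n)) (hK : ∀ j, 2 * (K j).card = n) :
    n + 2 ≤ 4 * (univ.filter fun x : Fin m → Fin n => (∀ j, x j ∈ K j) ∧ C x ∉ H).card := by
  classical
  obtain ⟨h, hh⟩ : ∃ h, n = 2 * h := ⟨n / 2, by omega⟩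
  have hodd : h % 2 = 1 := by omega
  have h0 : 0 < h := by omega
  have hK' : ∀ j, (K j).card = h := fun j => by have := hK j; omega
  have hH' : H.card = h := by omega
  set P : (Fin m → Fin n) → ℤ := fun x => ∏ j, sg (K j) (x j) with hP
  set V : ℕ := (univ.filter fun x : Fin m → Fin n => (∀ j, x j ∈ K j) ∧ C x ∉ H).card with hV
  -- the violating cells of the box
  have hVsum : ∑ x, (if C x ∉ H then (1 : ℤ) else 0) * ∏ j, ind (K j) (x j) = V := by
    rw [hV, card_filter]
    push_cast
    refine sum_congr rfl fun x _ => ?_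
    by_cases h1 : ∀ j, x j ∈ K j
    · have h2 : ∏ j, ind (K j) (x j) = 1 := prod_eq_one fun j _ => by simp [ind, h1 j]
      rw [h2]
      by_cases h3 : C x ∉ H
      · rw [if_pos h3, if_pos ⟨h1, h3⟩]; norm_num
      · rw [if_neg h3, if_neg (fun hc => h3 hc.2)]; norm_num
    · have h2 : ∏ j, ind (K j) (x j) = 0 := by
        push Not at h1
        obtain ⟨j, hj⟩ := h1
        exact prod_eq_zero (mem_univ j) (by simp [ind, hj])
      have h3 : ¬ ((∀ j, x j ∈ K j) ∧ C x ∉ H) := fun hc => h1 hc.1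
      rw [h2, if_neg h3, mul_zero]
  -- the first signed sum
  have hS1 : ∑ x, (if C x ∉ H then (1 : ℤ) else 0) * P x =
      2 ^ (m - 1) * (2 * V - (h : ℤ) * h ^ (m - 1)) := by
    rw [← hVsum]
    refine signed_sum (by omega) hh h0 K hK' ?_
    intro r x
    have hb := hC r x
    have : ∑ t, (if C (update x r t) ∉ H then (1 : ℤ) else 0) =
        ∑ s, (if s ∉ H then (1 : ℤ) else 0) :=
      Fintype.sum_bijective _ hb _ _ (fun t => rfl)
    rw [this, ← sum_filter, sum_const]
    have hc : (univ.filter fun s => s ∉ H).card = h := by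
      have h1 : ((univ : Finset (Fin n)).filter fun s => s ∈ H).card = h := by
        rw [filter_univ_mem, hH']
      have h2 : ((univ : Finset (Fin n)).filter fun s => s ∈ H).card +
          ((univ : Finset (Fin n)).filter fun s => ¬ s ∈ H).card = n := by
        rw [card_filter_add_card_filter_not]; simp
      omega
    rw [hc]; simp
  -- the sum of the signs
  have hS0 : ∑ x, P x = 0 := by
    have : ∑ x, P x = ∏ j, ∑ t, sg (K j) t := by
      rw [prod_univ_sum, Fintype.piFinset_univ]
    rw [this]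
    exact prod_eq_zero (mem_univ (⟨0, by omega⟩ : Fin m)) (sum_sg (hK _))
  -- the layers
  have hL : ∀ s, ∃ a : ℤ, ∑ x, (if D x = s then (1 : ℤ) else 0) * P x =
      2 ^ (m - 1) * (2 * a - 1 * h ^ (m - 1)) := by
    intro s
    refine ⟨_, signed_sum (by omega) hh h0 K hK' ?_⟩
    intro r x
    have hb := hD r x
    have : ∑ t, (if D (update x r t) = s then (1 : ℤ) else 0) =
        ∑ t, (if t = s then (1 : ℤ) else 0) :=
      Fintype.sum_bijective _ hb _ _ (fun t => rfl)
    rw [this]; simp
  have hL2 : ∀ s, (2 : ℤ) ^ (m - 1) ≤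
      ∑ x, (if D x = s then (1 : ℤ) else 0) * |P x - sg H (C x)| := by
    intro s
    obtain ⟨a, ha⟩ := hL s
    have h1 : ∑ x, (if D x = s then (1 : ℤ) else 0) * (P x - sg H (C x)) =
        2 ^ (m - 1) * (2 * a - 1 * h ^ (m - 1)) := by
      rw [← ha]
      have := hCD s
      simp only [mul_sub, sum_sub_distrib]
      rw [this, sub_zero]
    have h2 : |∑ x, (if D x = s then (1 : ℤ) else 0) * (P x - sg H (C x))| ≤
        ∑ x, (if D x = s then (1 : ℤ) else 0) * |P x - sg H (C x)| := by
      refine (abs_sum_le_sum_abs _ _).trans (le_of_eq (sum_congr rfl fun x _ => ?_))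
      split_ifs <;> simp
    refine le_trans ?_ h2
    rw [h1, abs_mul, abs_of_nonneg (by positivity : (0 : ℤ) ≤ 2 ^ (m - 1))]
    have h3 : (1 : ℤ) ≤ |2 * a - 1 * (h : ℤ) ^ (m - 1)| := by
      apply Int.one_le_abs
      intro hc
      have h4 : Odd ((h : ℤ) ^ (m - 1)) := by
        apply Odd.pow
        exact_mod_cast Nat.odd_iff.2 hodd
      obtain ⟨b, hb⟩ := h4
      omega
    calc (2 : ℤ) ^ (m - 1) = 2 ^ (m - 1) * 1 := by ring
      _ ≤ _ := mul_le_mul_of_nonneg_left h3 (by positivity)
  have hT : (n : ℤ) * 2 ^ (m - 1) ≤ ∑ x, |P x - sg H (C x)| := by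
    calc (n : ℤ) * 2 ^ (m - 1) = ∑ _s : Fin n, (2 : ℤ) ^ (m - 1) := by simp
      _ ≤ ∑ s, ∑ x, (if D x = s then (1 : ℤ) else 0) * |P x - sg H (C x)| :=
        sum_le_sum fun s _ => hL2 s
      _ = ∑ x, |P x - sg H (C x)| := by
        rw [sum_comm]
        refine sum_congr rfl fun x _ => ?_
        rw [← sum_mul]
        simp
  have hA : ∀ x, |P x - sg H (C x)| = 1 - P x + 2 * ((if C x ∉ H then (1 : ℤ) else 0) * P x) := by
    intro x
    have h1 := prod_sg_sq K x
    rw [← show P x = ∏ j, sg (K j) (x j) from rfl] at h1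
    unfold sg
    by_cases h3 : C x ∈ H
    · rcases h1 with h1 | h1 <;> rw [h1] <;> simp [h3]
    · rcases h1 with h1 | h1 <;> rw [h1] <;> simp [h3]
  have hE : ∑ x, |P x - sg H (C x)| = 4 * 2 ^ (m - 1) * V := by
    simp only [hA]
    rw [sum_add_distrib, sum_sub_distrib, ← mul_sum, hS1, hS0]
    have h1 : ∑ _x : Fin m → Fin n, (1 : ℤ) = 2 ^ m * h ^ m := by
      simp only [sum_const, card_univ, nsmul_eq_mul, mul_one]
      rw [Fintype.card_fun, Fintype.card_fin, Fintype.card_fin, hh]
      push_cast; ring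
    rw [h1]
    obtain ⟨q, rfl⟩ : ∃ q, m = q + 1 := ⟨m - 1, by omega⟩
    simp only [Nat.add_sub_cancel]
    ring
  rw [hE] at hT
  have h5 : (0 : ℤ) < 2 ^ (m - 1) := by positivity
  have h6 : (n : ℤ) ≤ 4 * V := by
    by_contra hc
    push Not at hc
    nlinarith
  have h7 : n ≤ 4 * V := by exact_mod_cast h6
  omega

/-- two members of a variational set: the symbols of the first are uniform on every layer of the
second -/
theorem uniform {k : ℕ} {C : Fin k → (Fin m → Fin n) → Fin n} (hm : 2 ≤ m) (hmk : m ≤ k)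
    (hn : 0 < n) (h : IsVariationalSet m n k C) {i i' : Fin k} (hi : i ≠ i')
    (H : Finset (Fin n)) (hH : 2 * H.card = n) (s : Fin n) :
    ∑ x, (if C i' x = s then (1 : ℤ) else 0) * sg H (C i x) = 0 := by
  classical
  -- an injection with first value `i` and second value `i'`
  obtain ⟨e, he, he0, he1⟩ : ∃ e : Fin m → Fin k, Injective e ∧ e ⟨0, by omega⟩ = i ∧
      e ⟨1, by omega⟩ = i' := by
    set e0 : Fin m → Fin k := Fin.castLE hmk with he0
    have h0 : Injective e0 := Fin.castLE_injective hmk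
    set s1 : Equiv.Perm (Fin k) := Equiv.swap (e0 ⟨0, by omega⟩) i with hs1
    have h1 : s1 (e0 ⟨0, by omega⟩) = i := Equiv.swap_apply_left _ _
    set b : Fin k := s1 (e0 ⟨1, by omega⟩) with hb
    have hbi : b ≠ i := by
      rw [← h1, hb]
      intro hc
      have h2 := h0 (s1.injective hc)
      have h3 := congrArg Fin.val h2
      simp at h3
    refine ⟨fun j => Equiv.swap b i' (s1 (e0 j)), ?_, ?_, ?_⟩
    · exact (Equiv.swap b i').injective.comp (s1.injective.comp h0)
    · simp only [h1]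
      exact Equiv.swap_apply_of_ne_of_ne (Ne.symm hbi) hi
    · exact Equiv.swap_apply_left _ _
  have hb := h.2 e he
  have h1 : ∑ x, (if C i' x = s then (1 : ℤ) else 0) * sg H (C i x) =
      ∑ y : Fin m → Fin n, (if y ⟨1, by omega⟩ = s then (1 : ℤ) else 0) *
        sg H (y ⟨0, by omega⟩) := by
    refine Fintype.sum_bijective _ hb _ _ (fun x => ?_)
    simp only [he0, he1]
  rw [h1]
  have h2 := line_sum (n := n) (c := 0) (f := fun y : Fin m → Fin n => sg H (y ⟨0, by omega⟩))
    (g := fun y : Fin m → Fin n => if y ⟨1, by omega⟩ = s then (1 : ℤ) else 0) ⟨0, by omega⟩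
    (by intro x; simpa using sum_sg hH)
    (by intro x t; rw [update_of_ne (by simp)])
  rw [zero_mul] at h2
  have hn0 : (n : ℤ) ≠ 0 := by exact_mod_cast hn.ne'
  have h3 := (mul_eq_zero.1 h2).resolve_left hn0
  exact (sum_congr rfl fun y _ => mul_comm _ _).trans h3

/-- **Mann's theorem in every dimension.** -/
theorem mann {k : ℕ} {C : Fin k → (Fin m → Fin n) → Fin n} (hm : 2 ≤ m) (hmk : m ≤ k)
    (hn : n % 4 = 2) (h : IsVariationalSet m n k C) (i : Fin k) (H : Finset (Fin n))
    (hH : 2 * H.card = n) (K : Fin m → Finset (Fin n)) (hK : ∀ j, 2 * (K j).card = n) :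
    n + 2 ≤ 4 * (univ.filter fun x : Fin m → Fin n => (∀ j, x j ∈ K j) ∧ C i x ∉ H).card := by
  obtain ⟨i', hi⟩ : ∃ i' : Fin k, i ≠ i' := by
    have : Nontrivial (Fin k) := Fin.nontrivial_iff_two_le.2 (by omega)
    obtain ⟨i', hi'⟩ := exists_ne i
    exact ⟨i', hi'.symm⟩
  exact box hm hn (h.1 i) (h.1 i') H hH (fun s => uniform hm hmk (by omega) h hi H hH s) K hK

end Pool.Agent.L7h54.MN
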