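import Pool.Agent.L7h54.MN.Blocks

set_option autoImplicit false

/-!
# Variational sets of products over a partition of the coordinates: the bound `2 * r ≤ m`
-/

namespace Pool.Agent.L7h54.MN

open Finset Function Pool.Agent.H430R2.PermCubes

variable {m n : ℕ}

/-- The cube `C` is a product along a partition of the coordinates: `β j` is the block of the
coordinate `j`, and there are a group `G`, a bijection `e : G → [n]` and, for every block `b`, a function
`g b` of the coordinates in the block `b` with values in `G`, such that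
`C x = e (g 0 x * g 1 x * ... * g (r - 1) x)`. -/
def IsBlockProduct (m n r : ℕ) (β : Fin m → Fin r) (C : (Fin m → Fin n) → Fin n) : Prop :=
  ∃ (G : Type) (_ : Group G) (e : G ≃ Fin n) (g : Fin r → (Fin m → Fin n) → G),
    (∀ b x y, (∀ j, β j = b → x j = y j) → g b x = g b y) ∧
    ∀ x, C x = e (List.ofFn fun b => g b x).prod

/-- the signs of a block product -/
theorem sign_data {r : ℕ} {β : Fin m → Fin r} {C : (Fin m → Fin n) → Fin n} (hn : n % 4 = 2)
    (hC : IsPermutationCube m n C) (hP : IsBlockProduct m n r β C) :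
    ∃ (H : Finset (Fin n)) (s : Fin r → (Fin m → Fin n) → ℤ), 2 * H.card = n ∧
      (∀ b x, s b x = 1 ∨ s b x = -1) ∧
      (∀ b x y, (∀ j, β j = b → x j = y j) → s b x = s b y) ∧
      (∀ x, sg H (C x) = ∏ b, s b x) ∧
      ∀ j x, ∏ t, s (β j) (update x j t) = -1 := by
  classical
  obtain ⟨G, _, e, g, hg, hCg⟩ := hP
  have hcard : Nat.card G = n := by rw [Nat.card_congr e, Nat.card_fin]
  obtain ⟨N, hN⟩ := exists_index_two G (by rw [hcard]; exact hn)
  have : Finite G := Nat.finite_of_card_ne_zero (by omega)
  have hc : 2 * Nat.card N = n := by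
    rw [← hcard, ← hN, N.index_mul_card]
  set H : Finset (Fin n) := univ.filter fun t => e.symm t ∈ N with hH
  have hHc : 2 * H.card = n := by
    have h1 : H.card = Nat.card N := by
      rw [hH, ← Fintype.card_subtype, ← Nat.card_eq_fintype_card]
      exact Nat.card_congr (e.symm.subtypeEquiv (fun a => Iff.rfl))
    rw [h1, hc]
  have hsg : ∀ a : G, sg H (e a) = eps N a := by
    intro a
    simp [sg, eps, hH]
  refine ⟨H, fun b x => eps N (g b x), hHc, ?_, ?_, ?_, ?_⟩
  · intro b x
    change eps N (g b x) = 1 ∨ eps N (g b x) = -1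
    unfold eps; split_ifs <;> simp
  · intro b x y hxy
    change eps N (g b x) = eps N (g b y)
    rw [hg b x y hxy]
  · intro x
    rw [hCg, hsg, eps_prod N hN]
  · intro j x
    obtain ⟨A, B, hAB⟩ := prod_update r (β j) (fun b => g b x)
    have h1 : ∀ t, C (update x j t) = e (A * g (β j) (update x j t) * B) := by
      intro t
      rw [hCg, ← hAB]
      congr 3
      funext b
      by_cases hb : b = β j
      · subst hb; simp
      · rw [update_of_ne hb]
        refine hg b _ _ fun j' hj' => ?_
        rw [update_of_ne]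
        rintro rfl
        exact hb hj'.symm
    have hinj : Injective (fun t : Fin n => e (g (β j) (update x j t))) := by
      intro t t' htt
      simp only at htt
      have h2 := e.injective htt
      apply (hC j x).1
      simp only [h1, h2]
    have hbij := Finite.injective_iff_bijective.1 hinj
    have h3 : ∏ t, eps N (g (β j) (update x j t)) = ∏ s, sg H s :=
      Fintype.prod_bijective _ hbij _ _ (fun t => (hsg _).symm)
    rw [h3]
    refine prod_eq_neg_one _ (fun t => ?_) (by rw [Fintype.card_fin]; exact hn) (sum_sg hHc)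
    unfold sg; split_ifs <;> simp

/-- **At most half as many blocks as coordinates.** -/
theorem blocks {k r : ℕ} {C : Fin k → (Fin m → Fin n) → Fin n} (hm : 2 ≤ m) (hme : Even m)
    (hn : n % 4 = 2) (h : IsVariationalSet m n k C) (β : Fin m → Fin r) (hβ : Surjective β)
    (i : Fin (m + 1) → Fin k) (hi : Injective i)
    (hP : ∀ a, IsBlockProduct m n r β (C (i a))) : 2 * r ≤ m := by
  classical
  have : NeZero n := ⟨by omega⟩
  have hD : IsVariationalSet m n (m + 1) (fun a => C (i a)) :=
    ⟨fun a => h.1 (i a), fun e he => h.2 (fun j => i (e j)) (hi.comp he)⟩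
  choose H s hH hs1 hs2 hs3 hs4 using fun a => sign_data hn (h.1 (i a)) (hP a)
  obtain ⟨a, ha⟩ := odd_total (by omega) le_rfl hn hD H hH
  set F : Fin r → (Fin m → Fin n) → ℤ := fun b x => ∏ c : Fin (m + 1), s c b x with hF
  have hT : ∑ x, ∏ c : Fin (m + 1), sg (H c) (C (i (Fin.castLE le_rfl c)) x) =
      ∑ x, (∏ b ∈ univ, F b x) * 1 := by
    refine sum_congr rfl fun x _ => ?_
    rw [mul_one, hF, prod_comm]
    exact prod_congr rfl fun c _ => hs3 c x
  rw [hT] at ha
  have hdvd := four_pow_dvd F (surjInv hβ) (injective_surjInv hβ) (by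
    intro b b' x t hbb
    refine prod_congr rfl fun c _ => hs2 c b _ _ fun j hj => ?_
    rw [update_of_ne]
    rintro rfl
    rw [surjInv_eq hβ] at hj
    exact hbb hj.symm) (by
    intro b x
    refine four_dvd_sum _ (fun t => ?_) (by rw [Fintype.card_fin]; exact hn) ?_
    · exact (sum_prod_mod univ (fun c => s c b (update x (surjInv hβ b) t))
        (fun c => hs1 c b _)).1
    · rw [hF, prod_comm]
      have h1 : ∀ c ∈ (univ : Finset (Fin (m + 1))),
          ∏ t, s c b (update x (surjInv hβ b) t) = -1 := by
        intro c _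
        have := hs4 c (surjInv hβ b) x
        rwa [surjInv_eq hβ] at this
      rw [prod_congr rfl h1, prod_const, card_univ, Fintype.card_fin]
      exact (hme.add_one).neg_one_pow) univ (fun _ => 1) (fun _ _ _ _ => rfl)
  rw [ha, card_univ, Fintype.card_fin] at hdvd
  by_contra hcon
  push Not at hcon
  have h2 : (2 : ℤ) ^ (m + 1) ∣ 4 ^ r := by
    have : (4 : ℤ) ^ r = 2 ^ (2 * r) := by rw [pow_mul]; norm_num
    rw [this]
    exact pow_dvd_pow 2 hcon
  have h3 := h2.trans hdvd
  rw [pow_succ] at h3
  have h4 : (2 : ℤ) ∣ 2 * a + 1 := by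
    obtain ⟨c, hc⟩ := h3
    refine ⟨c, ?_⟩
    have h5 : (2 : ℤ) ^ m ≠ 0 := by positivity
    apply mul_left_cancel₀ h5
    rw [hc]; ring
  omega

end Pool.Agent.L7h54.MN
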