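import Pool.Agent.L7h54.MN.Main

set_option autoImplicit false

/-!
# Relations between the members of a variational set of order `2` modulo `4`
-/

namespace Pool.Agent.L7h54.MN

open Finset Function Pool.Agent.H430R2.PermCubes

variable {m n : ℕ}

/-- signs and parity of a number of elements -/
theorem prod_neg_pow {α : Type} (s : Finset α) (p : α → Prop) [DecidablePred p] :
    ∏ j ∈ s, (if p j then (-1 : ℤ) else 1) = (-1) ^ (s.filter p).card := by
  rw [prod_ite]
  simp

theorem neg_sg (K : Finset (Fin n)) (t : Fin n) : (if t ∈ K then (-1 : ℤ) else 1) = -sg K t := by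
  unfold sg; split_ifs <;> simp

/-- **The core**: `E` a bijective choice of `m` columns, `c` another column that can replace each of
them, `d` a column which is uniform on the layers of `c`. -/
theorem rel_core {E : (Fin m → Fin n) → (Fin m → Fin n)} (hE : Bijective E)
    {c d : (Fin m → Fin n) → Fin n} (hm : 2 ≤ m) (hn : n % 4 = 2)
    (hc : ∀ r x x', (∀ j, j ≠ r → E x j = E x' j) → c x = c x' → E x r = E x' r)
    (H : Finset (Fin n))
    (hcd : ∀ s, ∑ x, (if c x = s then (1 : ℤ) else 0) * sg H (d x) = 0)
    (K : Fin m → Finset (Fin n)) (hK : ∀ j, 2 * (K j).card = n) :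
    n * 2 ^ (m - 2) ≤ (univ.filter fun x : Fin m → Fin n =>
      Odd ((univ.filter fun j => E x j ∈ K j).card + if d x ∈ H then 1 else 0)).card := by
  classical
  obtain ⟨h, hh⟩ : ∃ h, n = 2 * h := ⟨n / 2, by omega⟩
  have hodd : h % 2 = 1 := by omega
  have hK' : ∀ j, (K j).card = h := fun j => by have := hK j; omega
  set F : (Fin m → Fin n) ≃ (Fin m → Fin n) := Equiv.ofBijective E hE with hF
  have hFa : ∀ x, F x = E x := fun x => rfl
  set P : (Fin m → Fin n) → ℤ := fun x => ∏ j, (if E x j ∈ K j then (-1 : ℤ) else 1) with hP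
  set Q : (Fin m → Fin n) → ℤ := fun x => (if d x ∈ H then (-1 : ℤ) else 1) with hQ
  have hP' : ∀ x, P x = (-1) ^ m * ∏ j, sg (K j) (E x j) := by
    intro x
    simp only [hP, neg_sg, prod_neg, card_univ, Fintype.card_fin]
  -- the layers
  have hL : ∀ s, ∃ a : ℤ, ∑ x, (if c x = s then (1 : ℤ) else 0) * P x =
      2 ^ (m - 1) * (2 * a + 1) := by
    intro s
    have h1 : ∑ x, (if c x = s then (1 : ℤ) else 0) * ∏ j, sg (K j) (E x j) =
        ∑ y, (if c (F.symm y) = s then (1 : ℤ) else 0) * ∏ j, sg (K j) (y j) := by
      refine Fintype.sum_equiv F _ _ (fun x => ?_)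
      rw [F.symm_apply_apply, hFa]
    have hline : ∀ (r : Fin m) (y : Fin m → Fin n),
        ∑ t, (if c (F.symm (update y r t)) = s then (1 : ℤ) else 0) = 1 := by
      intro r y
      have hinj : Injective (fun t : Fin n => c (F.symm (update y r t))) := by
        intro t t' htt
        simp only at htt
        have h2 := hc r (F.symm (update y r t)) (F.symm (update y r t')) (by
          intro j hj
          rw [← hFa, ← hFa, F.apply_symm_apply, F.apply_symm_apply, update_of_ne hj,
            update_of_ne hj]) htt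
        rw [← hFa, ← hFa, F.apply_symm_apply, F.apply_symm_apply, update_self, update_self] at h2
        exact h2
      have hbij := Finite.injective_iff_bijective.1 hinj
      have h3 : ∑ t, (if c (F.symm (update y r t)) = s then (1 : ℤ) else 0) =
          ∑ t, (if t = s then (1 : ℤ) else 0) :=
        Fintype.sum_bijective _ hbij _ _ (fun t => rfl)
      rw [h3]; simp
    have h4 := signed_sum (f := fun y => if c (F.symm y) = s then (1 : ℤ) else 0)
      (by omega : 1 ≤ m) hh (by omega) K hK' hline
    have h5 : Odd ((h : ℤ) ^ (m - 1)) := by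
      apply Odd.pow
      exact_mod_cast Nat.odd_iff.2 hodd
    obtain ⟨b, hb⟩ := h5
    have h6 : ∑ x, (if c x = s then (1 : ℤ) else 0) * P x =
        (-1) ^ m * (2 ^ (m - 1) * (2 * (∑ y, (if c (F.symm y) = s then (1 : ℤ) else 0) *
          ∏ j, ind (K j) (y j)) - 1 * h ^ (m - 1))) := by
      rw [← h4, ← h1, mul_sum]
      refine sum_congr rfl fun x _ => ?_
      rw [hP']; ring
    rw [h6, hb]
    rcases Int.even_or_odd (m : ℤ) with he | ho
    · have : (-1 : ℤ) ^ m = 1 := by
        apply Even.neg_one_pow
        exact_mod_cast he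
      rw [this]
      refine ⟨∑ y, (if c (F.symm y) = s then (1 : ℤ) else 0) * ∏ j, ind (K j) (y j) - b - 1, ?_⟩
      ring
    · have : (-1 : ℤ) ^ m = -1 := by
        apply Odd.neg_one_pow
        exact_mod_cast ho
      rw [this]
      refine ⟨b - ∑ y, (if c (F.symm y) = s then (1 : ℤ) else 0) * ∏ j, ind (K j) (y j), ?_⟩
      ring
  have hQ0 : ∀ s, ∑ x, (if c x = s then (1 : ℤ) else 0) * Q x = 0 := by
    intro s
    have h1 : ∑ x, (if c x = s then (1 : ℤ) else 0) * Q x =
        -∑ x, (if c x = s then (1 : ℤ) else 0) * sg H (d x) := by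
      rw [← sum_neg_distrib]
      refine sum_congr rfl fun x _ => ?_
      simp only [hQ, neg_sg]; ring
    rw [h1, hcd, neg_zero]
  have hL2 : ∀ s, (2 : ℤ) ^ (m - 1) ≤
      ∑ x, (if c x = s then (1 : ℤ) else 0) * |P x - Q x| := by
    intro s
    obtain ⟨a, ha⟩ := hL s
    have h1 : ∑ x, (if c x = s then (1 : ℤ) else 0) * (P x - Q x) =
        2 ^ (m - 1) * (2 * a + 1) := by
      rw [← ha]
      simp only [mul_sub, sum_sub_distrib]
      rw [hQ0, sub_zero]
    have h2 : |∑ x, (if c x = s then (1 : ℤ) else 0) * (P x - Q x)| ≤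
        ∑ x, (if c x = s then (1 : ℤ) else 0) * |P x - Q x| := by
      refine (abs_sum_le_sum_abs _ _).trans (le_of_eq (sum_congr rfl fun x _ => ?_))
      split_ifs <;> simp
    refine le_trans ?_ h2
    rw [h1, abs_mul, abs_of_nonneg (by positivity : (0 : ℤ) ≤ 2 ^ (m - 1))]
    have h3 : (1 : ℤ) ≤ |2 * a + 1| := by
      apply Int.one_le_abs
      omega
    calc (2 : ℤ) ^ (m - 1) = 2 ^ (m - 1) * 1 := by ring
      _ ≤ _ := mul_le_mul_of_nonneg_left h3 (by positivity)
  have hT : (n : ℤ) * 2 ^ (m - 1) ≤ ∑ x, |P x - Q x| := by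
    calc (n : ℤ) * 2 ^ (m - 1) = ∑ _s : Fin n, (2 : ℤ) ^ (m - 1) := by simp
      _ ≤ ∑ s, ∑ x, (if c x = s then (1 : ℤ) else 0) * |P x - Q x| :=
        sum_le_sum fun s _ => hL2 s
      _ = ∑ x, |P x - Q x| := by
        rw [sum_comm]
        refine sum_congr rfl fun x _ => ?_
        rw [← sum_mul]
        simp
  have hA : ∀ x, |P x - Q x| = 2 * (if Odd ((univ.filter fun j => E x j ∈ K j).card +
      if d x ∈ H then 1 else 0) then (1 : ℤ) else 0) := by
    intro x
    have h1 : P x = (-1) ^ (univ.filter fun j => E x j ∈ K j).card := prod_neg_pow univ _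
    rw [h1]
    simp only [hQ]
    generalize (univ.filter fun j => E x j ∈ K j).card = a
    by_cases h2 : d x ∈ H
    · simp only [if_pos h2]
      rcases Nat.even_or_odd a with he | ho
      · rw [he.neg_one_pow, if_pos he.add_one]; norm_num
      · rw [ho.neg_one_pow, if_neg (by rw [Nat.not_odd_iff_even]; exact ho.add_one)]; norm_num
    · simp only [if_neg h2, add_zero]
      rcases Nat.even_or_odd a with he | ho
      · rw [he.neg_one_pow, if_neg (by rw [Nat.not_odd_iff_even]; exact he)]; norm_num
      · rw [ho.neg_one_pow, if_pos ho]; norm_num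
  have hE2 : ∑ x, |P x - Q x| = 2 * ((univ.filter fun x : Fin m → Fin n =>
      Odd ((univ.filter fun j => E x j ∈ K j).card + if d x ∈ H then 1 else 0)).card : ℤ) := by
    simp only [hA]
    rw [← mul_sum, card_filter]
    push_cast
    rfl
  rw [hE2] at hT
  obtain ⟨q, rfl⟩ : ∃ q, m = q + 2 := ⟨m - 2, by omega⟩
  simp only [show q + 2 - 1 = q + 1 by omega, Nat.add_sub_cancel] at hT ⊢
  rw [pow_succ] at hT
  have h7 : ((n * 2 ^ q : ℕ) : ℤ) ≤ ((univ.filter fun x : Fin (q + 2) → Fin n =>
      Odd ((univ.filter fun j => E x j ∈ K j).card + if d x ∈ H then 1 else 0)).card : ℤ) := by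
    push_cast
    linarith
  exact_mod_cast h7

/-- uniformity of a pair of columns that belong to a bijective choice of columns -/
theorem unif {B : (Fin m → Fin n) → (Fin m → Fin n)} (hB : Bijective B) (hn : 0 < n)
    {u v : Fin m} (huv : u ≠ v) (H : Finset (Fin n)) (hH : 2 * H.card = n) (s : Fin n) :
    ∑ x, (if B x u = s then (1 : ℤ) else 0) * sg H (B x v) = 0 := by
  have h1 : ∑ x, (if B x u = s then (1 : ℤ) else 0) * sg H (B x v) =
      ∑ y : Fin m → Fin n, (if y u = s then (1 : ℤ) else 0) * sg H (y v) :=
    Fintype.sum_bijective _ hB _ _ (fun x => rfl)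
  rw [h1]
  have h2 := line_sum (n := n) (c := 0) (f := fun y : Fin m → Fin n => sg H (y v))
    (g := fun y : Fin m → Fin n => if y u = s then (1 : ℤ) else 0) v
    (by intro x; simpa using sum_sg hH)
    (by intro x t; rw [update_of_ne huv])
  rw [zero_mul] at h2
  have hn0 : (n : ℤ) ≠ 0 := by exact_mod_cast hn.ne'
  have h3 := (mul_eq_zero.1 h2).resolve_left hn0
  exact (sum_congr rfl fun y _ => mul_comm _ _).trans h3

/-- a member outside a set of members -/
theorem exists_other {k l : ℕ} (e : Fin l → Fin k) (hk : l + 1 ≤ k) : ∃ i', ∀ j, e j ≠ i' := by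
  by_contra hcon
  push Not at hcon
  have : Surjective e := hcon
  have := Fintype.card_le_of_surjective e this
  simp at this
  omega

/-- replacing one of `m` members by another member -/
theorem replace {k : ℕ} {C : Fin k → (Fin m → Fin n) → Fin n} (h : IsVariationalSet m n k C)
    {e : Fin m → Fin k} (he : Injective e) {i' : Fin k} (hi' : ∀ j, e j ≠ i') (r : Fin m)
    {x x' : Fin m → Fin n} (h1 : ∀ j, j ≠ r → C (e j) x = C (e j) x') (h2 : C i' x = C i' x') :
    x = x' := by
  have hb := h.2 (update e r i') (by
    intro a b hab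
    by_cases ha : a = r
    · by_cases hb : b = r
      · rw [ha, hb]
      · rw [ha, update_self, update_of_ne hb] at hab
        exact absurd hab.symm (hi' b)
    · by_cases hb : b = r
      · rw [hb, update_self, update_of_ne ha] at hab
        exact absurd hab (hi' a)
      · rw [update_of_ne ha, update_of_ne hb] at hab
        exact he hab)
  apply hb.1
  funext j
  by_cases hj : j = r
  · subst hj; simpa using h2
  · simpa only [update_of_ne hj] using h1 j hj

/-- **No parity relation between `m + 1` members**, if there are at least `m + 2` members. -/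
theorem rel_members {k : ℕ} {C : Fin k → (Fin m → Fin n) → Fin n} (hm : 2 ≤ m) (hmk : m + 2 ≤ k)
    (hn : n % 4 = 2) (h : IsVariationalSet m n k C) (e : Fin (m + 1) → Fin k) (he : Injective e)
    (H : Fin (m + 1) → Finset (Fin n)) (hH : ∀ j, 2 * (H j).card = n) :
    n * 2 ^ (m - 2) ≤ (univ.filter fun x : Fin m → Fin n =>
      Odd (univ.filter fun j => C (e j) x ∈ H j).card).card := by
  classical
  obtain ⟨i', hi'⟩ := exists_other e hmk
  have he' : Injective (fun j : Fin m => e j.castSucc) := he.comp (Fin.castSucc_injective m)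
  have h1 := rel_core (E := fun x j => C (e j.castSucc) x) (c := C i') (d := C (e (Fin.last m)))
    (h.2 _ he') hm hn (by
      intro r x x' h1 h2
      rw [replace h he' (fun j => hi' _) r h1 h2]) (H (Fin.last m))
    (fun s => uniform hm (by omega) (by omega) h (hi' _) _ (hH _) s)
    (fun j => H j.castSucc) (fun j => hH _)
  refine h1.trans (le_of_eq ?_)
  congr 1
  refine filter_congr fun x _ => ?_
  have h2 : (univ.filter fun j : Fin (m + 1) => C (e j) x ∈ H j).card =
      (univ.filter fun j : Fin m => C (e j.castSucc) x ∈ H j.castSucc).card +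
        if C (e (Fin.last m)) x ∈ H (Fin.last m) then 1 else 0 := by
    rw [card_filter, card_filter, Fin.sum_univ_castSucc]
  rw [h2]

/-- **No parity relation between `m` members and a coordinate**, if there are at least `m + 1`
members. -/
theorem rel_coord {k : ℕ} {C : Fin k → (Fin m → Fin n) → Fin n} (hm : 2 ≤ m) (hmk : m + 1 ≤ k)
    (hn : n % 4 = 2) (h : IsVariationalSet m n k C) (e : Fin m → Fin k) (he : Injective e)
    (l : Fin m) (H : Fin m → Finset (Fin n)) (hH : ∀ j, 2 * (H j).card = n) (A : Finset (Fin n))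
    (hA : 2 * A.card = n) :
    n * 2 ^ (m - 2) ≤ (univ.filter fun x : Fin m → Fin n =>
      Odd ((univ.filter fun j => C (e j) x ∈ H j).card + if x l ∈ A then 1 else 0)).card := by
  classical
  obtain ⟨i', hi'⟩ := exists_other e hmk
  obtain ⟨u, hu⟩ : ∃ u : Fin m, u ≠ l := by
    have : Nontrivial (Fin m) := Fin.nontrivial_iff_two_le.2 hm
    exact exists_ne l
  refine rel_core (E := fun x j => C (e j) x) (c := C i') (d := fun x => x l)
    (h.2 _ he) hm hn (by
      intro r x x' h1 h2
      rw [replace h he hi' r h1 h2]) A (fun s => ?_) H hH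
  -- the coordinates different from `u` together with the member `i'`
  have hB : Bijective (fun x : Fin m → Fin n => update x u (C i' x)) := by
    refine Finite.injective_iff_bijective.1 ?_
    intro x x' hxx
    simp only at hxx
    have h1 : ∀ j, j ≠ u → x j = x' j := by
      intro j hj
      have := congrFun hxx j
      rwa [update_of_ne hj, update_of_ne hj] at this
    have h2 : C i' x = C i' x' := by
      have := congrFun hxx u
      rwa [update_self, update_self] at this
    have h3 : update x u (x' u) = x' := by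
      funext j
      by_cases hj : j = u
      · subst hj; simp
      · rw [update_of_ne hj, h1 j hj]
    have h4 : x u = x' u := by
      apply (h.1 i' u x).1
      simp only [update_eq_self, h3]
      exact h2
    funext j
    by_cases hj : j = u
    · rw [hj, h4]
    · exact h1 j hj
  have h5 := unif hB (by omega) hu A hA s
  simpa only [update_self, update_of_ne hu.symm] using h5

end Pool.Agent.L7h54.MN
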