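import Pool.Agent.L7h54.MN.Rel

set_option autoImplicit false

/-!
# Relations between the members: divisibility and groups
-/

namespace Pool.Agent.L7h54.MN

open Finset Function Pool.Agent.H430R2.PermCubes

variable {m n : ℕ}

/-- the number of the cells with an odd number of members in their half sets is divisible by
`2 ^ m` -/
theorem two_pow_dvd {k : ℕ} {C : Fin k → (Fin m → Fin n) → Fin n} (hm : 2 ≤ m)
    (hn : n % 4 = 2) (h : IsVariationalSet m n k C) (e : Fin (m + 1) → Fin k) (he : Injective e)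
    (H : Fin (m + 1) → Finset (Fin n)) (hH : ∀ j, 2 * (H j).card = n) :
    2 ^ m ∣ (univ.filter fun x : Fin m → Fin n =>
      Odd (univ.filter fun j => C (e j) x ∈ H j).card).card := by
  classical
  obtain ⟨l, hl⟩ : ∃ l, n = 2 * l := ⟨n / 2, by omega⟩
  have hlo : l % 2 = 1 := by omega
  have hD : IsVariationalSet m n (m + 1) (fun a => C (e a)) :=
    ⟨fun a => h.1 (e a), fun e' he' => h.2 (fun j => e (e' j)) (he.comp he')⟩
  obtain ⟨a, ha⟩ := odd_total (by omega) le_rfl hn hD H hH
  set N := (univ.filter fun x : Fin m → Fin n =>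
      Odd (univ.filter fun j => C (e j) x ∈ H j).card).card with hN
  have h1 : ∀ x, (-1 : ℤ) ^ (m + 1) * ∏ i : Fin (m + 1), sg (H i) (C (e (Fin.castLE le_rfl i)) x) =
      1 - 2 * (if Odd (univ.filter fun j => C (e j) x ∈ H j).card then (1 : ℤ) else 0) := by
    intro x
    have h2 : (-1 : ℤ) ^ (m + 1) * ∏ i : Fin (m + 1), sg (H i) (C (e (Fin.castLE le_rfl i)) x) =
        (-1) ^ (univ.filter fun j => C (e j) x ∈ H j).card := by
      rw [← prod_neg_pow univ (fun j => C (e j) x ∈ H j)]
      simp only [neg_sg, prod_neg, card_univ, Fintype.card_fin]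
      rfl
    rw [h2]
    generalize (univ.filter fun j => C (e j) x ∈ H j).card = b
    rcases Nat.even_or_odd b with hb | hb
    · rw [hb.neg_one_pow, if_neg (by rw [Nat.not_odd_iff_even]; exact hb)]; norm_num
    · rw [hb.neg_one_pow, if_pos hb]; norm_num
  have h3 : (-1 : ℤ) ^ (m + 1) * (2 ^ m * (2 * a + 1)) = 2 ^ m * l ^ m - 2 * N := by
    rw [← ha, mul_sum, sum_congr rfl (fun x _ => h1 x), sum_sub_distrib, ← mul_sum, hN,
      card_filter]
    push_cast
    congr 1
    simp only [sum_const, card_univ, nsmul_eq_mul, mul_one]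
    rw [Fintype.card_fun, Fintype.card_fin, Fintype.card_fin, hl]
    push_cast; ring
  have h4 : Odd ((l : ℤ) ^ m) := by
    apply Odd.pow
    exact_mod_cast Nat.odd_iff.2 hlo
  obtain ⟨b, hb⟩ := h4
  rw [hb] at h3
  obtain ⟨q, rfl⟩ : ∃ q, m = q + 1 := ⟨m - 1, by omega⟩
  have h5 : ∃ c : ℤ, (N : ℤ) = 2 ^ (q + 1) * c := by
    rcases Nat.even_or_odd (q + 1 + 1) with he | ho
    · rw [he.neg_one_pow] at h3
      refine ⟨b - a, ?_⟩
      rw [pow_succ] at h3 ⊢
      linarith
    · rw [ho.neg_one_pow] at h3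
      refine ⟨b + a + 1, ?_⟩
      rw [pow_succ] at h3 ⊢
      linarith
  obtain ⟨c, hc⟩ := h5
  have h6 : ((2 ^ (q + 1) : ℕ) : ℤ) ∣ (N : ℤ) := ⟨c, by push_cast; exact hc⟩
  exact_mod_cast h6

/-- **No parity relation between `m + 1` members**, the precise bound. -/
theorem rel_members' {k : ℕ} {C : Fin k → (Fin m → Fin n) → Fin n} (hm : 2 ≤ m) (hmk : m + 2 ≤ k)
    (hn : n % 4 = 2) (h : IsVariationalSet m n k C) (e : Fin (m + 1) → Fin k) (he : Injective e)
    (H : Fin (m + 1) → Finset (Fin n)) (hH : ∀ j, 2 * (H j).card = n) :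
    2 ^ (m - 2) * (n + 2) ≤ (univ.filter fun x : Fin m → Fin n =>
      Odd (univ.filter fun j => C (e j) x ∈ H j).card).card := by
  have h1 := rel_members hm hmk hn h e he H hH
  obtain ⟨w, hw⟩ := two_pow_dvd hm hn h e he H hH
  rw [hw] at h1 ⊢
  obtain ⟨q, rfl⟩ : ∃ q, m = q + 2 := ⟨m - 2, by omega⟩
  simp only [Nat.add_sub_cancel] at h1 ⊢
  have h2 : 2 ^ (q + 2) * w = 2 ^ q * (4 * w) := by ring
  rw [h2] at h1 ⊢
  rw [mul_comm n] at h1
  have h3 : n ≤ 4 * w := Nat.le_of_mul_le_mul_left h1 (by positivity)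
  exact Nat.mul_le_mul_left _ (by omega)

/-- the parity of a product in a group with a subgroup of index two -/
theorem parity_prod {G : Type} [Group G] (N : Subgroup G) [DecidablePred (· ∈ N)]
    (hN : N.index = 2) {r : ℕ} (a : Fin r → G) :
    ¬ Odd ((univ.filter fun j => a j ∉ N).card + if (List.ofFn a).prod ∉ N then 1 else 0) := by
  rw [Nat.not_odd_iff_even]
  have h1 := eps_prod N hN a
  have h2 : ∀ b : G, eps N b = if b ∉ N then (-1 : ℤ) else 1 := by
    intro b; unfold eps; by_cases hb : b ∈ N <;> simp [hb]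
  simp only [h2] at h1
  rw [prod_neg_pow univ (fun j => a j ∉ N)] at h1
  generalize (univ.filter fun j => a j ∉ N).card = c at *
  by_cases h3 : (List.ofFn a).prod ∉ N
  · rw [if_pos h3] at h1 ⊢
    rcases Nat.even_or_odd c with hc | hc
    · rw [hc.neg_one_pow] at h1; norm_num at h1
    · exact hc.add_one
  · rw [if_neg h3] at h1 ⊢
    rcases Nat.even_or_odd c with hc | hc
    · exact hc
    · rw [hc.neg_one_pow] at h1; norm_num at h1

/-- half sets from a subgroup of index two -/
theorem half_of_index_two {G : Type} [Group G] (hn : n % 4 = 2) (hG : Nat.card G = n)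
    (N : Subgroup G) [DecidablePred (· ∈ N)] (hN : N.index = 2) (f : Fin n ≃ G) :
    2 * (univ.filter fun t => f t ∉ N).card = n := by
  classical
  have : Finite G := Nat.finite_of_card_ne_zero (by omega)
  have hc : 2 * Nat.card N = n := by rw [← hG, ← hN, N.index_mul_card]
  have h1 : (univ.filter fun t => f t ∈ N).card = Nat.card N := by
    rw [← Fintype.card_subtype, ← Nat.card_eq_fintype_card]
    exact Nat.card_congr (f.subtypeEquiv (fun a => Iff.rfl))
  have h2 : (univ.filter fun t => f t ∈ N).card + (univ.filter fun t => ¬ f t ∈ N).card = n := by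
    rw [card_filter_add_card_filter_not]; simp
  omega

/-- no member is a product of `m` other members -/
theorem grp_members {k : ℕ} {C : Fin k → (Fin m → Fin n) → Fin n} (hm : 2 ≤ m) (hmk : m + 2 ≤ k)
    (hn : n % 4 = 2) (h : IsVariationalSet m n k C) (e : Fin (m + 1) → Fin k) (he : Injective e)
    (G : Type) [Group G] (g : Fin m → Fin n ≃ G) (f : G ≃ Fin n) :
    2 ^ (m - 2) * (n + 2) ≤ (univ.filter fun x : Fin m → Fin n =>
      C (e (Fin.last m)) x ≠ f (List.ofFn fun j => g j (C (e j.castSucc) x)).prod).card := by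
  classical
  have hG : Nat.card G = n := by rw [Nat.card_congr f, Nat.card_fin]
  obtain ⟨N, hN⟩ := exists_index_two G (by rw [hG]; exact hn)
  have h1 := rel_members' hm hmk hn h e he
    (Fin.snoc (fun j : Fin m => univ.filter fun t => g j t ∉ N)
      (univ.filter fun t => f.symm t ∉ N)) (by
      intro j
      refine Fin.lastCases ?_ (fun j => ?_) j
      · rw [Fin.snoc_last]; exact half_of_index_two hn hG N hN f.symm
      · rw [Fin.snoc_castSucc]; exact half_of_index_two hn hG N hN (g j))
  refine h1.trans (card_le_card fun x hx => ?_)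
  rw [mem_filter] at hx ⊢
  refine ⟨mem_univ _, fun hcon => ?_⟩
  have h2 := hx.2
  rw [card_filter, Fin.sum_univ_castSucc] at h2
  simp only [Fin.snoc_last, Fin.snoc_castSucc, mem_filter, mem_univ, true_and] at h2
  rw [hcon, f.symm_apply_apply, ← card_filter] at h2
  exact parity_prod N hN (fun j => g j (C (e j.castSucc) x)) h2

/-- no coordinate is a product of `m` members -/
theorem grp_coord {k : ℕ} {C : Fin k → (Fin m → Fin n) → Fin n} (hm : 2 ≤ m) (hmk : m + 1 ≤ k)
    (hn : n % 4 = 2) (h : IsVariationalSet m n k C) (e : Fin m → Fin k) (he : Injective e)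
    (l : Fin m) (G : Type) [Group G] (g : Fin m → Fin n ≃ G) (f : G ≃ Fin n) :
    n * 2 ^ (m - 2) ≤ (univ.filter fun x : Fin m → Fin n =>
      x l ≠ f (List.ofFn fun j => g j (C (e j) x)).prod).card := by
  classical
  have hG : Nat.card G = n := by rw [Nat.card_congr f, Nat.card_fin]
  obtain ⟨N, hN⟩ := exists_index_two G (by rw [hG]; exact hn)
  have h1 := rel_coord hm hmk hn h e he l (fun j => univ.filter fun t => g j t ∉ N)
    (fun j => half_of_index_two hn hG N hN (g j)) (univ.filter fun t => f.symm t ∉ N)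
    (half_of_index_two hn hG N hN f.symm)
  refine h1.trans (card_le_card fun x hx => ?_)
  rw [mem_filter] at hx ⊢
  refine ⟨mem_univ _, fun hcon => ?_⟩
  have h2 := hx.2
  simp only [mem_filter, mem_univ, true_and] at h2
  rw [hcon, f.symm_apply_apply] at h2
  exact parity_prod N hN (fun j => g j (C (e j) x)) h2

end Pool.Agent.L7h54.MN
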