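import Pool.Agent.L7h54.MN.Main
import Pool.Agent.TH418.CubesEven

set_option autoImplicit false

/-!
# The variational sets of `m + 1` cubes of order six are products over `m / 2` blocks

This follows the construction in `Pool.Agent.TH418.CubesEven` and records the partition.
-/

namespace Pool.Agent.L7h54.MN

open Finset Function Pool.Agent.H430R2.PermCubes Pool.Agent.TH418.CubesEven

/-- the family `F` is a sum over the blocks `B` of the inputs -/
structure Blk (I O B : Type) [Fintype B] (F : (I → ZMod 6) → O → ZMod 6) (β : I → B)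
    (g : O → B → (I → ZMod 6) → ZMod 6) : Prop where
  surj : Surjective β
  dep : ∀ o b x y, (∀ i, β i = b → x i = y i) → g o b x = g o b y
  sum : ∀ x o, F x o = ∑ b, g o b x

/-- the partition of the inputs in the recursion step -/
def stepB {I B : Type} (β : I → B) : Option (Option I) → Option B
  | none => none
  | some none => none
  | some (some i) => some (β i)

/-- the block functions of the recursion step -/
def stepG {I O B : Type} [DecidableEq O] (L : Fin 3 → ZMod 6 → ZMod 6 → ZMod 6)
    (g : O → B → (I → ZMod 6) → ZMod 6) (a a' b b' c : O) :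
    Option (Option O) → Option B → (Option (Option I) → ZMod 6) → ZMod 6
  | none, none, x => L 2 (x none) (x (some none))
  | none, some d, x => g c d (fun i => x (some (some i)))
  | some none, none, x => L 1 (x none) (x (some none))
  | some none, some d, x => g c d (fun i => x (some (some i)))
  | some (some o), none, x => L (sym a a' b b' o) (x none) (x (some none))
  | some (some o), some d, x => g o d (fun i => x (some (some i)))

theorem Blk.step {I O B : Type} [Fintype B] [DecidableEq O] {F : (I → ZMod 6) → O → ZMod 6}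
    {β : I → B} {g : O → B → (I → ZMod 6) → ZMod 6} (h : Blk I O B F β g)
    (L : Fin 3 → ZMod 6 → ZMod 6 → ZMod 6) (a a' b b' c : O) :
    Blk (Option (Option I)) (Option (Option O)) (Option B) (stepF L F a a' b b' c) (stepB β)
      (stepG L g a a' b b' c) := by
  refine ⟨?_, ?_, ?_⟩
  · intro d
    match d with
    | none => exact ⟨none, rfl⟩
    | some d =>
      obtain ⟨i, hi⟩ := h.surj d
      exact ⟨some (some i), by simp [stepB, hi]⟩
  · intro o d x y hxy
    match d with
    | none =>
      have h0 := hxy none rfl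
      have h1 := hxy (some none) rfl
      match o with
      | none => simp only [stepG, h0, h1]
      | some none => simp only [stepG, h0, h1]
      | some (some o) => simp only [stepG, h0, h1]
    | some d =>
      have h2 : ∀ i, β i = d → x (some (some i)) = y (some (some i)) := fun i hi =>
        hxy (some (some i)) (by simp [stepB, hi])
      match o with
      | none => exact h.dep _ _ _ _ h2
      | some none => exact h.dep _ _ _ _ h2
      | some (some o) => exact h.dep _ _ _ _ h2
  · intro x o
    rw [Fintype.sum_option]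
    match o with
    | none => simp only [stepF, stepG]; rw [h.sum, add_comm]
    | some none => simp only [stepF, stepG]; rw [h.sum, add_comm]
    | some (some o) => simp only [stepF, stepG]; rw [h.sum, add_comm]

/-- the partition in the base case -/
def baseB (i : Fin 8) : Fin 4 := ![0, 0, 1, 1, 2, 2, 3, 3] i

/-- the block functions in the base case -/
def baseG (P R L : Fin 3 → ZMod 6 → ZMod 6 → ZMod 6) (o : Fin 9) (b : Fin 4)
    (x : Fin 8 → ZMod 6) : ZMod 6 :=
  ![P (w1 o) (x 0) (x 1), R (w2 o) (x 2) (x 3), R (w3 o) (x 4) (x 5), L (w4 o) (x 6) (x 7)] b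

theorem blk_base (P R L : Fin 3 → ZMod 6 → ZMod 6 → ZMod 6) :
    Blk (Fin 8) (Fin 9) (Fin 4) (baseF P R L) baseB (baseG P R L) := by
  refine ⟨by decide, ?_, ?_⟩
  · intro o b x y hxy
    fin_cases b
    · simp [baseG, hxy 0 rfl, hxy 1 rfl]
    · simp [baseG, hxy 2 rfl, hxy 3 rfl]
    · simp [baseG, hxy 4 rfl, hxy 5 rfl]
    · simp [baseG, hxy 6 rfl, hxy 7 rfl]
  · intro x o
    rw [Fin.sum_univ_four]
    rfl

/-- a good family with its partition exists in every even dimension at least eight -/
theorem exists_good_blk {P R L : Fin 3 → ZMod 6 → ZMod 6 → ZMod 6} (hP : IsSpecial 2 P)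
    (hR : IsSpecial 0 R) (hL : IsGadget L) (r : ℕ) :
    ∃ (I O : Type) (_ : DecidableEq I) (_ : Fintype I) (_ : Fintype O) (_ : DecidableEq O)
      (F : (I → ZMod 6) → O → ZMod 6) (s : O → ZMod 6) (a a' b b' c : O)
      (B : Type) (_ : Fintype B) (β : I → B) (g : O → B → (I → ZMod 6) → ZMod 6), Good I O F s ∧
      (a ≠ a' ∧ b ≠ b' ∧ b ≠ a ∧ b ≠ a' ∧ b' ≠ a ∧ b' ≠ a' ∧ c ≠ a ∧ c ≠ a' ∧ c ≠ b ∧ c ≠ b') ∧
      (s a = 1 ∧ s a' = 1 ∧ s b = 1 ∧ s b' = 1 ∧ s c = 1) ∧
      Fintype.card I = 2 * r + 8 ∧ Fintype.card O = 2 * r + 9 ∧ Fintype.card B = r + 4 ∧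
      Blk I O B F β g := by
  induction r with
  | zero =>
    exact ⟨Fin 8, Fin 9, inferInstance, inferInstance, inferInstance, inferInstance, baseF P R L,
      fun _ => 1, 0, 1, 2, 3, 4, Fin 4, inferInstance, baseB, baseG P R L,
      good_base hP hR hL, by decide, ⟨rfl, rfl, rfl, rfl, rfl⟩,
      by simp, by simp, by simp, blk_base P R L⟩
  | succ r ih =>
    obtain ⟨I, O, _, _, _, _, F, s, a, a', b, b', c, B, _, β, g, h,
      ⟨h1, h2, h3, h4, h5, h6, h7, h8, h9, h10⟩, ⟨s1, s2, s3, s4, s5⟩, hI, hO, hB, hb⟩ := ih
    refine ⟨Option (Option I), Option (Option O), inferInstance, inferInstance, inferInstance,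
      inferInstance, stepF L F a a' b b' c, stepS s c, some (some a), some (some a'),
      some (some b), some (some b'), some none, Option B, inferInstance, stepB β,
      stepG L g a a' b b' c,
      h.step hL h1 h2 h3 h4 h5 h6 h7 h8 h9 h10 s1 s2 s3 s4 s5, ?_, ?_, ?_, ?_, ?_,
      hb.step L a a' b b' c⟩
    · simp [h1, h2, h3, h4, h5, h6]
    · simp [stepS, h7.symm, h8.symm, h9.symm, h10.symm, s1, s2, s3, s4]
    · simp only [Fintype.card_option, hI]; ring
    · simp only [Fintype.card_option, hO]; ring
    · have h' := Fintype.card_option (α := B)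
      omega

/-- the good family as a variational set of block products -/
theorem exists_blk {I O B : Type} [DecidableEq I] [Fintype I]
    [Fintype O] [DecidableEq O] [Fintype B] {F : (I → ZMod 6) → O → ZMod 6} {s : O → ZMod 6}
    (h : Good I O F s) {β : I → B} {g : O → B → (I → ZMod 6) → ZMod 6} (hb : Blk I O B F β g)
    {m r : ℕ} (hI : Fintype.card I = m) (hO : Fintype.card O = m + 1) (hB : Fintype.card B = r) :
    ∃ (β' : Fin m → Fin r) (C : Fin (m + 1) → (Fin m → Fin 6) → Fin 6), Surjective β' ∧
      IsVariationalSet m 6 (m + 1) C ∧ ∀ i, IsBlockProduct m 6 r β' (C i) := by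
  have eI : Fin m ≃ I := (Fintype.equivFinOfCardEq hI).symm
  have eO : Fin (m + 1) ≃ O := (Fintype.equivFinOfCardEq hO).symm
  have eB : Fin r ≃ B := (Fintype.equivFinOfCardEq hB).symm
  refine ⟨fun j => eB.symm (β (eI j)), fun k x => F (fun i => x (eI.symm i)) (eO k), ?_,
    ⟨?_, ?_⟩, ?_⟩
  · exact eB.symm.surjective.comp (hb.surj.comp eI.surjective)
  · intro k i x
    have e : ∀ t : Fin 6, (fun j => update x i t (eI.symm j)) =
        update (fun j => x (eI.symm j)) (eI i) t := by
      intro t
      funext j
      by_cases hj : j = eI i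
      · subst hj; simp
      · rw [update_of_ne hj, update_of_ne]
        intro h'
        exact hj (by rw [← h']; simp)
    simp only [e]
    exact h.line _ _ _
  · intro e he
    refine Finite.injective_iff_bijective.1 ?_
    intro x y hxy
    obtain ⟨k₀, hk₀⟩ : ∃ k₀, ∀ k, k ≠ k₀ → ∃ i, e i = k := by
      have hc : (Finset.univ.image e)ᶜ.card = 1 := by
        rw [Finset.card_compl, Finset.card_image_of_injective _ he]
        simp
      obtain ⟨k₀, hk₀⟩ := Finset.card_eq_one.1 hc
      refine ⟨k₀, fun k hk => ?_⟩
      by_contra hcon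
      have : k ∈ (Finset.univ.image e)ᶜ := by
        simpa using hcon
      rw [hk₀, Finset.mem_singleton] at this
      exact hk this
    have hXY : (fun i => x (eI.symm i) : I → ZMod 6) = (fun i => y (eI.symm i)) := by
      apply h.eq_of_agree (k₀ := eO k₀)
      intro o ho
      obtain ⟨i, hi⟩ := hk₀ (eO.symm o) (fun h' => ho (by rw [← h']; simp))
      have := congrFun hxy i
      simpa [hi] using this
    funext i
    have := congrFun hXY (eI i)
    simpa using this
  · intro k
    refine ⟨Multiplicative (ZMod 6), inferInstance, Multiplicative.toAdd,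
      fun d x => Multiplicative.ofAdd (g (eO k) (eB d) (fun i => x (eI.symm i))), ?_, ?_⟩
    · intro d x y hxy
      exact congrArg Multiplicative.ofAdd (hb.dep (eO k) (eB d) (fun i => x (eI.symm i))
        (fun i => y (eI.symm i)) fun i hi => hxy (eI.symm i) (by simp [hi]))
    · intro x
      rw [List.prod_ofFn]
      have h1 : ∏ d : Fin r, Multiplicative.ofAdd (g (eO k) (eB d) (fun i => x (eI.symm i))) =
          Multiplicative.ofAdd (F (fun i => x (eI.symm i)) (eO k)) := by
        have h2 := hb.sum (fun i => x (eI.symm i)) (eO k)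
        rw [← ofAdd_sum]
        exact congrArg Multiplicative.ofAdd
          ((Fintype.sum_equiv eB _ (fun b => g (eO k) b (fun i => x (eI.symm i)))
            (fun d => rfl)).trans h2.symm)
      rw [h1]
      rfl

/-- **For every even `m ≥ 8` there is a variational set of `m + 1` block products of order six along
a partition in `m / 2` blocks.** -/
theorem exists_sharp {m : ℕ} (hm : 8 ≤ m) (heven : Even m) :
    ∃ (β : Fin m → Fin (m / 2)) (C : Fin (m + 1) → (Fin m → Fin 6) → Fin 6), Surjective β ∧
      IsVariationalSet m 6 (m + 1) C ∧ ∀ i, IsBlockProduct m 6 (m / 2) β (C i) := by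
  obtain ⟨k, rfl⟩ := heven
  obtain ⟨r, rfl⟩ : ∃ r, k = r + 4 := ⟨k - 4, by omega⟩
  obtain ⟨I, O, _, _, _, _, F, s, a, a', b, b', c, B, _, β, g, h, -, -, hI, hO, hB, hb⟩ :=
    exists_good_blk gadP_dec.isSpecial gadR_dec.isSpecial gadL_dec.isSpecial.gad r
  exact exists_blk h hb (by rw [hI]; ring) (by rw [hO]; ring) (by rw [hB]; omega)

end Pool.Agent.L7h54.MN
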